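import Pool.Agent.Lib.MP_12eca1_ag.C.Fin

/-! Few Hurwitz zeta values of level `q` lie in a given finite-dimensional rational space. -/

namespace Pool.Agent.Results.MP_12eca1_ag.HurwitzValues

theorem result (k q : ℕ) (hk : 2 ≤ k) (hq : 2 ≤ q) (u v : ℝ) (huv : u ≠ (-1) ^ k * v)
    (V : Submodule ℚ ℝ) [FiniteDimensional ℚ V] (R : ℝ)
    (hR : R = 3000 * k * Real.log q * (1 + Module.finrank ℚ V) ^ 2) :
    ({a : ℕ | 0 < a ∧ a < q ∧ u * ∑' m : ℕ, 1 / ((m : ℝ) + a / q) ^ k +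
      v * ∑' m : ℕ, 1 / ((m : ℝ) + (1 - a / q)) ^ k ∈ V}.ncard : ℝ) ≤
      R + (q - R) * Real.exp (-(k * Real.log (q / R) ^ 2 / R)) :=
  Pool.Agent.Lib.MP_12eca1_ag.CM.count_upper hk hq huv V R hR

end Pool.Agent.Results.MP_12eca1_ag.HurwitzValues
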