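import Pool.Agent.Lib.MP_12eca1_ag.Y.Defs
import Pool.Agent.Lib.MP_12eca1_ag.Y.Fin

set_option autoImplicit false

namespace Pool.Agent.Results.MP_12eca1_ag.IteratedIntegrals

open Pool.Agent.Lib.MP_12eca1_ag

/-- For a finite set `S` of at least two algebraic numbers outside the open interval `(0, 1)`, the
rational span of the convergent iterated integrals of weight `w` from `0` to `1` of the forms
`dt / (t - a)`, `a ∈ S`, has dimension at least `|S| ^ ⌊w / 4⌋ / (C w ^ 2)`, with `C = 1000` for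
multiple zeta values. -/
theorem result (S : Finset ℂ) (hK : ∀ a ∈ S, IsAlgebraic ℚ a)
    (hS : ∀ a ∈ S, ∀ t : ℝ, 0 < t → t < 1 → a ≠ t) (hs : 2 ≤ S.card) :
    ∃ C : ℕ, ((S : Set ℂ) = {0, 1} → C = 1000) ∧ ∀ w : ℕ, 2 ≤ w →
      S.card ^ (w / 4) ≤ C * w ^ 2 * Module.finrank ℚ (Submodule.span ℚ
        {x : ℂ | ∃ u : List ℂ, u.length = w ∧ (∀ a ∈ u, a ∈ S) ∧ u.head? ≠ some 1 ∧
          u.getLast? ≠ some 0 ∧ x = itInt u 1}) :=
  MY.dim_lower4 hK (fun a ha t ht => (hS a ha t ht.1 ht.2).symm) hs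

end Pool.Agent.Results.MP_12eca1_ag.IteratedIntegrals
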