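import Pool.Agent.Lib.MP_12eca1_ag.Q.Fin

/-!
Large transcendence degree without the technical hypothesis: for all rationally independent
tuples `x` and `y` of at least `min (24 * T ^ 2) (80 * T - 56)` complex numbers each, the field
generated by the numbers `exp (x i * y j)` has transcendence degree at least `T`.
-/

namespace Pool.Agent.Results.MP_12eca1_ag.LargeDegree

theorem result (T m n : ℕ) (hm : min (24 * T ^ 2) (80 * T - 56) ≤ m)
    (hn : min (24 * T ^ 2) (80 * T - 56) ≤ n)
    (x : Fin m → ℂ) (y : Fin n → ℂ) (hx : LinearIndependent ℚ x) (hy : LinearIndependent ℚ y) :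
    (T : Cardinal) ≤ Algebra.trdeg ℚ (IntermediateField.adjoin ℚ
      (Set.range fun ij : Fin m × Fin n => Complex.exp (x ij.1 * y ij.2))) :=
  Pool.Agent.Lib.MP_12eca1_ag.Q.mainLinear T m n hm hn x y hx hy

end Pool.Agent.Results.MP_12eca1_ag.LargeDegree
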