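import Pool.Agent.Lib.MP_12eca1_ag.Main

/-!
If a rationally independent tuple `z` of `n ≥ 2` complex numbers is approximated up to
`exp (-q ^ 8)` by complex lines spanned by integral vectors of height at most `q`, for
arbitrarily large `q`, then the field generated by `z` and `exp z` has transcendence degree at
least `n + 1`.
-/

namespace Pool.Agent.Results.MP_12eca1_ag.RationalLines

theorem result (n : ℕ) (hn : 2 ≤ n) (z : Fin n → ℂ) (hz : LinearIndependent ℚ z)
    (happ : ∀ N : ℕ, ∃ q : ℕ, N ≤ q ∧ ∃ (p : Fin n → ℤ) (u : ℂ),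
      ∀ i, |p i| ≤ (q : ℤ) ∧ ‖z i - u * (p i : ℂ)‖ < Real.exp (-(q : ℝ) ^ 8)) :
    ((n + 1 : ℕ) : Cardinal) ≤ Algebra.trdeg ℚ
      (IntermediateField.adjoin ℚ (Set.range z ∪ Set.range fun i => Complex.exp (z i))) :=
  Pool.Agent.Lib.MP_12eca1_ag.main n hn z hz happ

end Pool.Agent.Results.MP_12eca1_ag.RationalLines
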